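import Pool.Agent.H25.PrimePtE

set_option autoImplicit false

/-!
# The distribution of the distances from primes to the following almost primes, integral and local, of all orders

Call an integer rough if it has no prime factor `p ≤ z`, and let `U` be the density of the rough integers. For every
`x₀` and `ε` there is a `K` such that, in all intervals `(u, u + Y] ⊆ (δ X, X]` with `Y ≥ δ X`, `X ≥ z ^ K`:
for the PRIMES `n` of the interval and every `t` with `(t - 1) U ≤ x₀`, the number of the rough integers in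
`(n, n + t)` has the Poisson distribution of mean `(t - 1) U`, and this holds also for the primes `n` for which
`n + t` is rough, for EVERY even `t`.
-/

namespace Pool.Agent.Results.MP_3499c5_nt.DistributionAfterPrimes

open Finset
open Pool.Agent.H25.TwoPtE (Rough U V U_up)

open Classical in
/-- The primes `n` in `(u, u + Y]` such that exactly `j` integers `m` with `n < m < n + t` have no prime
factor `p ≤ z`: the distance from `n` to the `j`-th rough integer after `n` is less than `t`, and to the next one it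
is at least `t`. -/
noncomputable def Exactly (z t j u Y : ℕ) : Finset ℕ :=
  (Ioc u (u + Y)).filter (fun n => n.Prime ∧ ((Ioo n (n + t)).filter (fun m => Rough z m)).card = j)

open Classical in
/-- The primes `n` in `(u, u + Y]` such that `n + t` has no prime factor `p ≤ z` and exactly `j` integers `m` with
`n < m < n + t` have none: the `(j + 1)`-st rough integer after `n` is `n + t`. -/
noncomputable def Nth (z t j u Y : ℕ) : Finset ℕ :=
  (Ioc u (u + Y)).filter (fun n => n.Prime ∧ Rough z (n + t) ∧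
    ((Ioo n (n + t)).filter (fun m => Rough z m)).card = j)

lemma rough_prime {z n : ℕ} (hn : n.Prime) (h : z < n) : Rough z n := by
  intro p hp hpz hd
  rcases (Nat.dvd_prime hn).1 hd with h1 | h1
  · exact hp.one_lt.ne' h1
  · omega

lemma exactly_eq (z t j u Y : ℕ) (h : z ≤ u) :
    Exactly z t j u Y = (Pool.Agent.H25.PrimePtD.PrimesIn z u Y).filter
      (fun n => Pool.Agent.H25.TwoPtE.Btw z t n ∈ ({j} : Finset ℕ)) := by
  classical
  ext n
  unfold Exactly Pool.Agent.H25.PrimePtD.PrimesIn Pool.Agent.H25.TwoPtE.Btw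
  rw [mem_filter, mem_filter, mem_filter, mem_singleton, mem_Ioc]
  constructor
  · rintro ⟨h1, h2, h3⟩
    exact ⟨⟨h1, h2, rough_prime h2 (by omega)⟩, by convert h3⟩
  · rintro ⟨⟨h1, h2, _⟩, h3⟩
    exact ⟨h1, h2, by convert h3⟩

lemma nth_eq (z t j u Y : ℕ) (h : z ≤ u) :
    Nth z t j u Y = (Pool.Agent.H25.PrimePtD.PrimePairs z t u Y).filter
      (fun n => Pool.Agent.H25.TwoPtE.Btw z t n ∈ ({j} : Finset ℕ)) := by
  classical
  ext n
  unfold Nth Pool.Agent.H25.PrimePtD.PrimePairs Pool.Agent.H25.TwoPtE.Btw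
  rw [mem_filter, mem_filter, mem_filter, mem_singleton, mem_Ioc]
  constructor
  · rintro ⟨h1, h2, h4, h3⟩
    exact ⟨⟨h1, h2, rough_prime h2 (by omega), h4⟩, by convert h3⟩
  · rintro ⟨⟨h1, h2, _, h4⟩, h3⟩
    exact ⟨h1, h2, h4, by convert h3⟩

/-- **The law of the distances from primes to the following almost primes, integral and local.** -/
theorem result (x₀ ε δ : ℝ) (hx : 0 ≤ x₀) (hε : 0 < ε) (hε1 : ε ≤ 1) (hδ : 0 < δ) (hδ1 : δ ≤ 1) :
    ∃ K z₀ : ℕ, 2 ≤ z₀ ∧
      (∀ L n z : ℕ, 2 ≤ z → n ≠ 0 → n ≤ z ^ L → Rough z n → n.primeFactorsList.length ≤ L) ∧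
      ∀ z : ℕ, z₀ ≤ z → ∀ X : ℕ, z ^ K ≤ X → ∀ u Y : ℕ, δ * X ≤ u → δ * X ≤ Y → u + Y ≤ X →
      ∀ t : ℕ, 1 ≤ t → ((t : ℝ) - 1) * U z ≤ x₀ → ∀ j : ℕ,
        |((Exactly z t j u Y).card : ℝ) - Y / Real.log X *
          (Real.exp (-(((t : ℝ) - 1) * U z)) * (((t : ℝ) - 1) * U z) ^ j / j.factorial)| ≤
          ε * (Y / Real.log X) ∧
        (Even t → 0 < V t z ∧
          |((Nth z t j u Y).card : ℝ) - Y * (V t z / U z) / Real.log X *
            (Real.exp (-(((t : ℝ) - 1) * U z)) * (((t : ℝ) - 1) * U z) ^ j / j.factorial)| ≤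
            ε * (Y * (V t z / U z) / Real.log X)) := by
  obtain ⟨K1, z1, hK1, hz1, H1⟩ := Pool.Agent.H25.PrimePtD.after x₀ ε δ hx hε hε1 hδ hδ1
  obtain ⟨K2, z2, hK2, hz2, H2⟩ := Pool.Agent.H25.PrimePtD.between x₀ ε δ hx hε hε1 hδ hδ1
  obtain ⟨z3, hz3⟩ := exists_nat_ge (1 / δ)
  refine ⟨K1 + K2, z1 + z2 + z3, by omega, ?_, ?_⟩
  · intro L n z hz hn0 hn h
    exact Pool.Agent.H25.TwoPtE.few hz hn0 hn h
  intro z hz X hX u Y hu hY huY t ht1 hxt j
  have hzr : (0 : ℝ) < z := by exact_mod_cast (by omega : 0 < z)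
  have hp : ∀ k ≤ K1 + K2, z ^ k ≤ X := fun k hk => (Nat.pow_le_pow_right (by omega) hk).trans hX
  have hzu : z ≤ u := by
    have h1 : ((z ^ 2 : ℕ) : ℝ) ≤ X := by exact_mod_cast hp 2 (by omega)
    push_cast at h1
    have h2 : 1 / δ ≤ z := hz3.trans (by exact_mod_cast (by omega : z3 ≤ z))
    rw [div_le_iff₀ hδ] at h2
    have h3 : (z : ℝ) ≤ u := by
      calc (z : ℝ) = z * 1 := (mul_one _).symm
        _ ≤ z * (z * δ) := by gcongr
        _ = δ * (z : ℝ) ^ 2 := by ring
        _ ≤ δ * X := by gcongr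
        _ ≤ u := hu
    exact_mod_cast h3
  refine ⟨?_, ?_⟩
  · have h := (H1 z (by omega) X (hp _ (by omega))).2 t ht1 hxt u Y hu hY huY {j}
    rw [← exactly_eq z t j u Y hzu, Finset.sum_singleton] at h
    exact h
  · intro hte
    obtain ⟨hV, h⟩ := H2 z (by omega) X (hp _ (by omega)) t hte ht1 hxt
    have h' := h u Y hu hY huY {j}
    rw [← nth_eq z t j u Y hzu, Finset.sum_singleton] at h'
    exact ⟨hV, h'⟩

end Pool.Agent.Results.MP_3499c5_nt.DistributionAfterPrimes
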